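import Pool.Agent.P8H41.PK.Stm
import Pool.Agent.N596.KC.Cap

/-!
# Project PK, package AVG: average over the caps
-/

set_option autoImplicit false

open MeasureTheory Metric Filter Set
open scoped Topology InnerProductSpace
open Pool.Agent.H818R2 Pool.Agent.N596.KC Pool.Agent.P8H41.PK

namespace Pool.Agent.P8H71.PK

/-- averaging over the caps -/
lemma card_le_of_bound {E : Type*} [NormedAddCommGroup E] [InnerProductSpace ℝ E]
    [FiniteDimensional ℝ E] [MeasurableSpace E] [BorelSpace E] {C : Finset E}
    (hC : ∀ x ∈ C, ‖x‖ = 1) {q s ε : ℝ} {B : ℕ} (hq : 0 ≤ q)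
    (hs : 0 < s) (hε : 0 < ε) (hεs : ε < s) (hg : q ^ 2 + s ^ 2 + 7 * ε ≤ 1)
    (hn : 4 * √(s ^ 2 - ε ^ 2) ^ Module.finrank ℝ E ≤ s ^ Module.finrank ℝ E)
    (hB : ∀ (z : E) (P : Finset E), z ≠ 0 → P ⊆ C → (∀ x ∈ P, q * ‖z‖ < ⟪x, z⟫_ℝ) → P.card ≤ B) :
    s ^ Module.finrank ℝ E / 2 * C.card ≤ B := by
  classical
  set n := Module.finrank ℝ E with hndef
  have key : ∑ x ∈ C, ∫⁻ z, indicator (cone q x) (fun _ => (1 : ENNReal)) z
      ≤ ∫⁻ z, indicator (ball (0 : E) 1) (fun _ => (B : ENNReal)) z := by
    rw [← lintegral_finsetSum]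
    · apply lintegral_mono
      intro z
      have e1 : ∑ x ∈ C, indicator (cone q x) (fun _ => (1 : ENNReal)) z
          = ((C.filter (fun x => z ∈ cone q x)).card : ENNReal) := by
        rw [Finset.card_filter, Nat.cast_sum]
        apply Finset.sum_congr rfl
        intro x _
        by_cases h : z ∈ cone q x <;> simp [indicator, h]
      simp only [e1]
      by_cases hz : z ∈ ball (0 : E) 1
      · rw [indicator_of_mem hz]
        have : (C.filter (fun x => z ∈ cone q x)).card ≤ B := by
          by_cases hz0 : z = 0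
          · have : C.filter (fun x => z ∈ cone q x) = ∅ := by
              apply Finset.filter_eq_empty_iff.2
              intro x _ hxz
              have h1 := hxz.2
              rw [hz0] at h1
              simp at h1
            rw [this]
            simp
          · exact hB z _ hz0 (Finset.filter_subset _ _)
              (fun x hx => (Finset.mem_filter.1 hx).2.2)
        exact_mod_cast this
      · have : C.filter (fun x => z ∈ cone q x) = ∅ := by
          apply Finset.filter_eq_empty_iff.2
          intro x _ hxz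
          exact hz (cone_subset q x hxz)
        rw [this]; simp
    · intro x _
      exact Measurable.indicator measurable_const (measurableSet_cone q x)
  have e2 : ∀ x ∈ C, ∫⁻ z, indicator (cone q x) (fun _ => (1 : ENNReal)) z = volume (cone q x) := by
    intro x _
    rw [lintegral_indicator_const (measurableSet_cone q x), one_mul]
  rw [Finset.sum_congr rfl e2, lintegral_indicator_const measurableSet_ball] at key
  have hlow : ∀ x ∈ C, ENNReal.ofReal (s ^ n / 2 * vb E) ≤ volume (cone q x) := by
    intro x hx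
    apply ENNReal.ofReal_le_of_le_toReal
    exact cap_vol hq hs hε hεs hg hn (hC x hx)
  have h1 : (C.card : ENNReal) * ENNReal.ofReal (s ^ n / 2 * vb E) ≤
      (B : ENNReal) * volume (ball (0 : E) 1) := by
    refine le_trans ?_ key
    rw [← nsmul_eq_mul, ← Finset.sum_const]
    exact Finset.sum_le_sum hlow
  have h2 := ENNReal.toReal_mono (ENNReal.mul_ne_top (ENNReal.natCast_ne_top B)
    measure_ball_lt_top.ne) h1
  have hv := vb_pos (E := E)
  rw [ENNReal.toReal_mul, ENNReal.toReal_mul, ENNReal.toReal_natCast, ENNReal.toReal_natCast,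
    ENNReal.toReal_ofReal (by positivity)] at h2
  have h3 : (volume (ball (0 : E) 1)).toReal = vb E := rfl
  rw [h3] at h2
  have h4 : (s ^ n / 2 * C.card) * vb E ≤ B * vb E := by nlinarith
  exact le_of_mul_le_mul_right h4 hv

/-- package AVG -/
theorem avg : S_AVG := by
  intro n P q s ε hP hP1 hq hs hε hεs hg hn
  by_contra hcon
  push Not at hcon
  set a : ℝ := s ^ n / 2 * P.card with ha
  have hc : 0 < (P.card : ℝ) := by exact_mod_cast hP.card_pos
  have ha0 : 0 < a := by positivity
  have hce : 0 < ⌈a⌉₊ := Nat.ceil_pos.2 ha0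
  have hfr : Module.finrank ℝ (E n) = n := finrank_euclideanSpace_fin
  have h1 := card_le_of_bound (E := E n) (C := P) (q := q) (s := s) (ε := ε) (B := ⌈a⌉₊ - 1)
    hP1 hq hs hε hεs hg (by rw [hfr]; exact hn) (fun z P' hz hP' hz' => by
      have h2 := hcon z P' hz hP' hz'
      have h3 : P'.card < ⌈a⌉₊ := Nat.lt_ceil.2 h2
      omega)
  rw [hfr, ← ha] at h1
  have h4 : ⌈a⌉₊ - 1 < ⌈a⌉₊ := by omega
  have h5 : ((⌈a⌉₊ - 1 : ℕ) : ℝ) < a := Nat.lt_ceil.1 h4
  linarith

end Pool.Agent.P8H71.PK
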